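import Mathlib

/-! The Cartier operator on the Fermat curve of degree seven and on its elliptic quotient. -/

namespace Pool.Agent.Work.MP_8625e1_nt.Kl

open PowerSeries Finset

variable {F : Type*} [Field F]

lemma cart {p q : ℕ} [CharP F p] (hp : p = q + 1) (hF : ∀ a : F, a ^ p = a) (α γ : F⟦X⟧)
    (P : Polynomial F) (hP : P.natDegree < 2 * q + 1) :
    coeff (2 * q + 1) (γ ^ p * Polynomial.aeval (X ^ 2 * α) P * derivative F (X ^ 2 * α)) =
      P.coeff q * (2 * constantCoeff α * constantCoeff γ) := by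
  have hp0 : ((p : ℕ) : F) = 0 := CharP.cast_eq_zero _ p
  have key : ∀ i ∈ range (2 * q + 1),
      coeff (2 * q + 1) (γ ^ p * (P.coeff i • (X ^ 2 * α) ^ i) * derivative F (X ^ 2 * α)) =
        if i = q then P.coeff i * (2 * constantCoeff α * constantCoeff γ) else 0 := by
    intro i hi
    rw [mul_smul_comm, smul_mul_assoc, map_smul, smul_eq_mul]
    split_ifs with h
    · subst h
      congr 1
      have : γ ^ p * (X ^ 2 * α) ^ i * derivative F (X ^ 2 * α) =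
          X ^ (2 * i + 1) * (γ ^ p * α ^ i * (2 * α + X * derivative F α)) := by
        simp only [Derivation.leibniz, Derivation.leibniz_pow, derivative_X, smul_eq_mul,
          nsmul_eq_mul]
        push_cast
        ring
      rw [this]
      have h2 := coeff_X_pow_mul (γ ^ p * α ^ i * (2 * α + X * derivative F α)) (2 * i + 1) 0
      rw [zero_add] at h2
      rw [h2, coeff_zero_eq_constantCoeff_apply]
      have h3 := hF (constantCoeff α)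
      rw [hp, pow_succ] at h3
      simp only [map_mul, map_pow, map_add, constantCoeff_X, zero_mul, add_zero, hF, map_ofNat]
      linear_combination 2 * constantCoeff γ * h3
    · generalize X ^ 2 * α = x
      have hi' : i < 2 * q + 1 := by simpa using hi
      have h1 : derivative F (γ ^ p * x ^ (i + 1)) =
          ((i + 1 : ℕ) : F) • (γ ^ p * x ^ i * derivative F x) := by
        have hp1 : ((p : ℕ) : F⟦X⟧) = 0 := by
          rw [← map_natCast (C : F →+* F⟦X⟧), hp0, map_zero]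
        simp only [Derivation.leibniz, Derivation.leibniz_pow, smul_eq_mul, nsmul_eq_mul, hp1,
          Nat.add_sub_cancel, Nat.cast_smul_eq_nsmul]
        ring
      have h2 := congrArg (coeff (2 * q + 1)) h1
      rw [coeff_derivative, map_smul, smul_eq_mul] at h2
      have h3 : (((2 * q + 1 : ℕ) : F) + 1) = 0 := by
        rw [hp] at hp0; push_cast at hp0 ⊢; linear_combination 2 * hp0
      have h4 : ((i + 1 : ℕ) : F) ≠ 0 := by
        rw [Ne, CharP.cast_eq_zero_iff F p]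
        rintro ⟨c, hc⟩
        rcases c with _ | _ | c
        · omega
        · omega
        · have : p * (c + 1 + 1) = p * c + 2 * p := by ring
          omega
      rw [h3, mul_zero] at h2
      rw [(mul_eq_zero.1 h2.symm).resolve_left h4, mul_zero]
  rw [Polynomial.aeval_eq_sum_range' hP, mul_sum, sum_mul, map_sum, sum_congr rfl key,
    sum_ite_eq' , if_pos (by simp; omega)]

lemma fermat (h7 : (7 : F) ≠ 0) : ∃ ρ : F⟦X⟧, ρ ^ 7 = 1 - X ^ 7 ∧ X ^ 2 ∣ ρ - 1 := by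
  have hm : (Polynomial.X ^ 7 - Polynomial.C (1 - X ^ 7 : F⟦X⟧)).Monic :=
    Polynomial.monic_X_pow_sub_C _ (by norm_num)
  have hu : IsUnit (7 : F⟦X⟧) := by
    rw [isUnit_iff_constantCoeff, map_ofNat]; exact h7.isUnit
  obtain ⟨ρ, h1, h2⟩ := HenselianRing.is_henselian (I := (Ideal.span {X} : Ideal F⟦X⟧)) _ hm 1
    (by
      rw [Ideal.mem_span_singleton]
      exact ⟨X ^ 6, by simp; ring⟩)
    (by
      have : Polynomial.eval 1 (Polynomial.derivative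
          (Polynomial.X ^ 7 - Polynomial.C (1 - X ^ 7 : F⟦X⟧))) = 7 := by
        rw [Polynomial.derivative_sub, Polynomial.derivative_C, Polynomial.derivative_X_pow]
        simp
      rw [this]; exact hu.map _)
  have h3 : ρ ^ 7 = 1 - X ^ 7 := by
    have := h1.eq_zero
    simp only [Polynomial.eval_sub, Polynomial.eval_pow, Polynomial.eval_X, Polynomial.eval_C]
      at this
    linear_combination this
  refine ⟨ρ, h3, ?_⟩
  obtain ⟨w, hw⟩ := Ideal.mem_span_singleton.1 h2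
  have h4 : ρ = 1 + X * w := by linear_combination hw
  have h5 : X ^ 2 ∣ 7 * (ρ - 1) := by
    refine ⟨-X ^ 5 - w ^ 2 * (21 + 35 * (X * w) + 35 * (X * w) ^ 2 + 21 * (X * w) ^ 3 +
      7 * (X * w) ^ 4 + (X * w) ^ 5), ?_⟩
    rw [h4] at h3 ⊢
    linear_combination h3
  exact (hu.dvd_mul_left).1 h5

lemma coeff_pow7 (l i : ℕ) : coeff i ((1 - X ^ 7 : F⟦X⟧) ^ l) =
    if 7 ∣ i then (l.choose (i / 7) : F) * (-1) ^ (i / 7) else 0 := by
  have h1 : (1 - X ^ 7 : F⟦X⟧) ^ l = ((Polynomial.expand F 7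
      (((1 + Polynomial.X) ^ l).comp (Polynomial.C (-1) * Polynomial.X)) : Polynomial F) :
        F⟦X⟧) := by
    simp [sub_eq_add_neg]
  rw [h1, Polynomial.coeff_coe, Polynomial.coeff_expand (by norm_num),
    Polynomial.comp_C_mul_X_coeff, Polynomial.coeff_one_add_X_pow]

lemma coeff_inv_pow {p : ℕ} [Fact p.Prime] [CharP F p] {ρ r : F⟦X⟧} (hρ : ρ ^ 7 = 1 - X ^ 7)
    (h2 : X ^ 2 ∣ ρ - 1) (hr : ρ * r = 1) {j k l i : ℕ} (h : j + 7 * l = p * k) (hi : i < 2 * p) :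
    coeff i (r ^ j) = if 7 ∣ i then (l.choose (i / 7) : F) * (-1) ^ (i / 7) else 0 := by
  haveI : CharP F⟦X⟧ p := charP_of_injective_ringHom (C_injective (R := F)) p
  have h3 : X ^ (2 * p) ∣ ρ ^ p - 1 := by
    have := pow_dvd_pow_of_dvd h2 p
    rwa [← pow_mul, sub_pow_char, one_pow] at this
  have h4 : X ^ (2 * p) ∣ (ρ ^ p) ^ k - 1 := h3.trans (by simpa using sub_dvd_pow_sub_pow (ρ ^ p) 1 k)
  have h5 : (1 - X ^ 7) ^ l - r ^ j = r ^ j * ((ρ ^ p) ^ k - 1) := by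
    rw [← pow_mul, ← h, pow_add, pow_mul, hρ]
    have : ρ ^ j * r ^ j = 1 := by rw [← mul_pow, hr, one_pow]
    linear_combination (-(1 - X ^ 7) ^ l) * this
  have h6 := X_pow_dvd_iff.1 (h4.mul_left (r ^ j)) i hi
  rw [← h5, map_sub, sub_eq_zero] at h6
  rw [← h6, coeff_pow7]

lemma curve (X ρ ι : F⟦X⟧) (hρ : ρ ^ 7 = 1 - X ^ 7) (s t W α β : F⟦X⟧)
    (hs : s = ρ ^ 3 + X - X ^ 3 * ρ) (ht : t = ρ ^ 2 - X ^ 3 - X ^ 2 * ρ ^ 3)
    (hW : W = 2 * s ^ 2 - 5 * X * ρ * t) (hι : t * ι = 1)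
    (hα : α = 28 * (ρ ^ 2 * s * ι ^ 2)) (hβ : β = 28 * ρ * s * W * ι ^ 3) :
    β ^ 2 = α * ((X ^ 2 * α) ^ 2 + 21 * (X ^ 2 * α) + 112) := by
  have I1 : s * W ^ 2 = 28 * X ^ 4 * ρ ^ 4 * s ^ 2 + 21 * X ^ 2 * ρ ^ 2 * s * t ^ 2 + 4 * t ^ 4 := by
    rw [hW, hs, ht]
    linear_combination (4 * ρ ^ 8 - 4 * X ^ 5 - 4 * X ^ 8 * ρ ^ 5) * hρ
  rw [hα, hβ]
  linear_combination 784 * ρ ^ 2 * s * ι ^ 6 * I1 + 784 * ρ ^ 2 * s * ι ^ 2 *
    (21 * X ^ 2 * ρ ^ 2 * s * ι ^ 2 * (t * ι + 1) +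
      4 * ((t * ι) ^ 3 + (t * ι) ^ 2 + t * ι + 1)) * hι

lemma differ (h7 : (7 : F) ≠ 0) (ρ r ι : F⟦X⟧) (hρ : ρ ^ 7 = 1 - X ^ 7) (hr : ρ * r = 1)
    (s t W : F⟦X⟧)
    (hs : s = ρ ^ 3 + X - X ^ 3 * ρ) (ht : t = ρ ^ 2 - X ^ 3 - X ^ 2 * ρ ^ 3)
    (hW : W = 2 * s ^ 2 - 5 * X * ρ * t) (hι : t * ι = 1) :
    derivative F (X ^ 2 * (28 * (ρ ^ 2 * s * ι ^ 2))) =
      X * (28 * ρ * s * W * ι ^ 3) * (s * r ^ 6) := by
  have h7' : (7 : F⟦X⟧) ≠ 0 := by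
    intro h; apply h7; simpa [map_ofNat] using congrArg constantCoeff h
  have hd : ρ ^ 6 * derivative F ρ = -X ^ 6 := by
    have := congrArg (derivative F) hρ
    simp only [map_sub, Derivation.leibniz_pow, derivative_X, smul_eq_mul, nsmul_eq_mul,
      Derivation.map_one_eq_zero] at this
    apply mul_left_cancel₀ h7'
    push_cast at this
    linear_combination this
  have h1 : derivative F ι = -ι ^ 2 * derivative F t := by
    have := congrArg (derivative F) hι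
    simp only [Derivation.leibniz, smul_eq_mul, Derivation.map_one_eq_zero] at this
    linear_combination ι * this - derivative F ι * hι
  have h2 : derivative F s = 3 * ρ ^ 2 * derivative F ρ + 1 - 3 * X ^ 2 * ρ
      - X ^ 3 * derivative F ρ := by
    rw [hs]
    simp only [map_sub, map_add, Derivation.leibniz, Derivation.leibniz_pow, derivative_X,
      smul_eq_mul, nsmul_eq_mul]
    push_cast; ring
  have h3 : derivative F t = 2 * ρ * derivative F ρ - 3 * X ^ 2 - 2 * X * ρ ^ 3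
      - 3 * X ^ 2 * ρ ^ 2 * derivative F ρ := by
    rw [ht]
    simp only [map_sub, map_add, Derivation.leibniz, Derivation.leibniz_pow, derivative_X,
      smul_eq_mul, nsmul_eq_mul]
    push_cast; ring
  have h4 : derivative F (28 : F⟦X⟧) = 0 := by
    simpa using (derivative F).map_natCast 28
  have I2 : ((2 * X * ρ ^ 2 * s + 2 * X ^ 2 * ρ * derivative F ρ * s +
      X ^ 2 * ρ ^ 2 * derivative F s) * t - 2 * (X ^ 2 * ρ ^ 2 * s) * derivative F t) * ρ ^ 6 =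
      X * ρ * s ^ 2 * W := by
    rw [h2, h3, hW, hs, ht]
    linear_combination (X ^ 2 * ρ ^ 6 - 2 * X ^ 3 * ρ ^ 3 + X ^ 4 * ρ ^ 7 - 2 * X ^ 6 * ρ
      - 3 * X ^ 7 * ρ ^ 5 + 3 * X ^ 8 * ρ ^ 2) * hd + (2 * X ^ 3 * ρ ^ 7 + 3 * X ^ 4 * ρ ^ 4
      + 2 * X ^ 5 * ρ + X ^ 6 * ρ ^ 5 - 3 * X ^ 7 * ρ ^ 2) * hρ
  have h6 : ρ ^ 6 * r ^ 6 = 1 := by rw [← mul_pow, hr, one_pow]
  simp only [Derivation.leibniz, Derivation.leibniz_pow, derivative_X, smul_eq_mul, nsmul_eq_mul,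
    h4, h1]
  push_cast
  generalize derivative F ρ = d at *
  generalize derivative F s = s' at *
  generalize derivative F t = t' at *
  linear_combination 28 * ι ^ 3 * r ^ 6 * I2 - 28 * ι ^ 3 *
    ((2 * X * ρ ^ 2 * s + 2 * X ^ 2 * ρ * d * s + X ^ 2 * ρ ^ 2 * s') * t
      - 2 * (X ^ 2 * ρ ^ 2 * s) * t') * h6
    - 28 * ι ^ 2 * (2 * X * ρ ^ 2 * s + 2 * X ^ 2 * ρ * d * s + X ^ 2 * ρ ^ 2 * s') * hι

theorem transfer {p m : ℕ} [CharP F p] (hp : p = 2 * (m + 1) + 1) (hF : ∀ a : F, a ^ p = a)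
    (h2 : (2 : F) ≠ 0) (h7 : (7 : F) ≠ 0) (ρ r : F⟦X⟧) (hρ : ρ ^ 7 = 1 - X ^ 7)
    (h0 : constantCoeff ρ = 1) (hr : ρ * r = 1) (Q : Polynomial F)
    (hQ : Q = Polynomial.X ^ 2 + Polynomial.C 21 * Polynomial.X + Polynomial.C 112) :
    (Q ^ (m + 1)).coeff (m + 1) = coeff (2 * m + 2) (r ^ 3 + X ^ 1 * r ^ 6 - X ^ 3 * r ^ 5) ∧
    28 * (Q ^ (m + 1)).coeff (m + 1 + 1) = coeff (2 * m + 4) (r ^ 4 + X ^ 6 * r ^ 8 + X ^ 4 * r ^ 2
      - 2 • (X ^ 3 * r ^ 6) - 2 • (X ^ 2 * r ^ 3) + 2 • (X ^ 5 * r ^ 5)) := by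
  obtain ⟨s, hs⟩ : ∃ s : F⟦X⟧, s = ρ ^ 3 + X - X ^ 3 * ρ := ⟨_, rfl⟩
  obtain ⟨t, ht⟩ : ∃ t : F⟦X⟧, t = ρ ^ 2 - X ^ 3 - X ^ 2 * ρ ^ 3 := ⟨_, rfl⟩
  obtain ⟨W, hW⟩ : ∃ W : F⟦X⟧, W = 2 * s ^ 2 - 5 * X * ρ * t := ⟨_, rfl⟩
  have s0 : constantCoeff s = 1 := by simp [hs, h0]
  have t0 : constantCoeff t = 1 := by simp [ht, h0]
  have W0 : constantCoeff W = 2 := by simp [hW, s0, map_ofNat]
  have hι : t * t⁻¹ = 1 := PowerSeries.mul_inv_cancel t (by simp [t0])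
  have ι0 : constantCoeff t⁻¹ = 1 := by simp [t0]
  generalize t⁻¹ = ι at hι ι0
  obtain ⟨α, hα⟩ : ∃ α : F⟦X⟧, α = 28 * (ρ ^ 2 * s * ι ^ 2) := ⟨_, rfl⟩
  obtain ⟨β, hβ⟩ : ∃ β : F⟦X⟧, β = 28 * ρ * s * W * ι ^ 3 := ⟨_, rfl⟩
  have H1 := curve X ρ ι hρ s t W α β hs ht hW hι hα hβ
  have H2 := differ h7 ρ r ι hρ hr s t W hs ht hW hι
  rw [← hα, ← hβ] at H2
  have α0 : constantCoeff α = 28 := by simp [hα, h0, s0, ι0, map_ofNat]
  have β0 : constantCoeff β = 56 := by simp [hβ, h0, s0, ι0, W0, map_ofNat]; norm_num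
  have h56 : (56 : F) ≠ 0 := by
    rw [show (56 : F) = 2 * 2 * 2 * 7 by norm_num]; simp [h2, h7]
  have hγ : β * β⁻¹ = 1 := PowerSeries.mul_inv_cancel β (by rw [β0]; exact h56)
  have γ0 : 2 * constantCoeff α * constantCoeff β⁻¹ = 1 := by
    rw [α0, constantCoeff_inv, β0]; field_simp; norm_num
  generalize β⁻¹ = γ at hγ γ0
  have e : ∀ n : ℕ, ρ ^ n * r ^ n = 1 := fun n => by rw [← mul_pow, hr, one_pow]
  have eγ : β ^ (2 * m + 3) * γ ^ (2 * m + 3) = 1 := by rw [← mul_pow, hγ, one_pow]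
  have dQ : (Q ^ (m + 1)).natDegree ≤ (m + 1) * 2 :=
    Polynomial.natDegree_pow_le.trans (Nat.mul_le_mul_left _ (by rw [hQ]; compute_degree))
  obtain ⟨g, hg⟩ : ∃ g : F⟦X⟧, g = (X ^ 2 * α) ^ 2 + 21 * (X ^ 2 * α) + 112 := ⟨_, rfl⟩
  have aQ : Polynomial.aeval (X ^ 2 * α) Q = g := by
    rw [hQ, hg]; simp [map_ofNat]
  rw [← hg] at H1
  have H3 : α ^ (m + 1) * g ^ (m + 1) = β ^ (2 * m + 2) := by
    rw [← mul_pow, ← H1, ← pow_mul]; rfl
  have hp' : p = 2 * m + 3 := by omega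
  have c1 := cart (q := 2 * m + 2) (by omega) hF α γ (Polynomial.X ^ (m + 1) * Q ^ (m + 1))
    (by
      refine Polynomial.natDegree_mul_le.trans_lt ?_
      rw [Polynomial.natDegree_X_pow]; omega)
  have c2 := cart (q := 2 * m + 2) (by omega) hF α γ (Polynomial.X ^ m * Q ^ (m + 1))
    (by
      refine Polynomial.natDegree_mul_le.trans_lt ?_
      rw [Polynomial.natDegree_X_pow]; omega)
  have aP : ∀ n : ℕ, Polynomial.aeval (X ^ 2 * α) (Polynomial.X ^ n * Q ^ (m + 1)) =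
      (X ^ 2 * α) ^ n * g ^ (m + 1) := fun n => by
    rw [map_mul, map_pow, map_pow, aQ, Polynomial.aeval_X]
  rw [γ0, mul_one, aP, H2, hp'] at c1 c2
  constructor
  · have a1 : γ ^ (2 * m + 3) * ((X ^ 2 * α) ^ (m + 1) * g ^ (m + 1)) * (X * β * (s * r ^ 6)) =
        X ^ (2 * m + 3) * (r ^ 3 + X ^ 1 * r ^ 6 - X ^ 3 * r ^ 5) := by
      have b1 : s * r ^ 6 = r ^ 3 + X ^ 1 * r ^ 6 - X ^ 3 * r ^ 5 := by
        rw [hs]; linear_combination r ^ 3 * e 3 - X ^ 3 * r ^ 5 * hr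
      rw [← b1]
      generalize s * r ^ 6 = h
      linear_combination γ ^ (2 * m + 3) * X ^ (2 * m + 3) * β * h * H3 + X ^ (2 * m + 3) * h * eγ
    rw [a1, show 2 * (2 * m + 2) + 1 = 2 * m + 2 + (2 * m + 3) by ring, coeff_X_pow_mul,
      show 2 * m + 2 = m + 1 + (m + 1) by ring, Polynomial.coeff_X_pow_mul] at c1
    rw [← c1]; congr 2; ring
  · obtain ⟨N, hN⟩ : ∃ N : F⟦X⟧, N = r ^ 4 + X ^ 6 * r ^ 8 + X ^ 4 * r ^ 2
      - 2 • (X ^ 3 * r ^ 6) - 2 • (X ^ 2 * r ^ 3) + 2 • (X ^ 5 * r ^ 5) := ⟨_, rfl⟩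
    have b1 : t ^ 2 * r ^ 8 = N := by
      rw [hN, ht]
      simp only [nsmul_eq_mul]
      push_cast
      linear_combination r ^ 4 * e 4 + X ^ 4 * r ^ 2 * e 6 - 2 * X ^ 3 * r ^ 6 * e 2
        - 2 * X ^ 2 * r ^ 3 * e 5 + 2 * X ^ 5 * r ^ 5 * e 3
    have b2 : 28 * (s * r ^ 6) = α * N := by
      rw [← b1, hα]
      linear_combination (-28 * s * r ^ 6) * e 2 - 28 * ρ ^ 2 * s * r ^ 8 * (t * ι + 1) * hι
    have a1 : (28 : F) • (γ ^ (2 * m + 3) * ((X ^ 2 * α) ^ m * g ^ (m + 1)) *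
        (X * β * (s * r ^ 6))) = X ^ (2 * m + 1) * N := by
      rw [Algebra.smul_def, map_ofNat]
      generalize s * r ^ 6 = h at *
      linear_combination γ ^ (2 * m + 3) * X ^ (2 * m + 1) * α ^ m * g ^ (m + 1) * β * b2 +
        γ ^ (2 * m + 3) * X ^ (2 * m + 1) * β * N * H3 + X ^ (2 * m + 1) * N * eγ
    have a2 := congrArg (coeff (2 * (2 * m + 2) + 1)) a1
    rw [map_smul, c2, smul_eq_mul, show 2 * (2 * m + 2) + 1 = 2 * m + 4 + (2 * m + 1) by ring,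
      coeff_X_pow_mul, show 2 * m + 2 = m + 1 + 1 + m by ring, Polynomial.coeff_X_pow_mul] at a2
    rw [← hN, a2]

end Pool.Agent.Work.MP_8625e1_nt.Kl
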