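import Mathlib

/-! Clausen's identity modulo `p` for central trinomial coefficients. -/

namespace Pool.Agent.Work.MP_8625e1_nt.Kl

open Polynomial Finset

variable {F : Type*} [Field F]

/-- The quadratic `x ^ 2 + 21 x - 16 Y` with coefficients in `F[Y]`. -/
noncomputable def QQ (F : Type*) [Field F] : F[X][X] := X ^ 2 + C 21 * X + C (-16 * X)

lemma coeff_mul_QQ2 (P : F[X][X]) (j : ℕ) :
    (P * QQ F).coeff (j + 2) = P.coeff j + 21 * P.coeff (j + 1) - 16 * X * P.coeff (j + 2) := by
  have : P * QQ F = P * X ^ 2 + C 21 * (P * X) + C (-16 * X) * P := by rw [QQ]; ring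
  rw [this, coeff_add, coeff_add, coeff_mul_X_pow, coeff_C_mul, coeff_C_mul, coeff_mul_X]
  ring

lemma coeff_mul_QQ1 (P : F[X][X]) :
    (P * QQ F).coeff 1 = 21 * P.coeff 0 - 16 * X * P.coeff 1 := by
  have : P * QQ F = P * X ^ 2 + C 21 * (P * X) + C (-16 * X) * P := by rw [QQ]; ring
  rw [this, coeff_add, coeff_add, coeff_mul_X_pow', coeff_C_mul, coeff_C_mul,
    show (1 : ℕ) = 0 + 1 from rfl, coeff_mul_X]
  simp
  ring

lemma coeff_mul_QQ0 (P : F[X][X]) :
    (P * QQ F).coeff 0 = - 16 * X * P.coeff 0 := by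
  simp [QQ, mul_coeff_zero]
  ring

lemma der_coeff (n : ℕ) (j : ℕ) :
    derivative ((QQ F ^ (n + 1)).coeff j) = -16 * ((n : F[X]) + 1) * (QQ F ^ n).coeff j := by
  have step : ∀ P P' : F[X][X], (∀ j, derivative (P.coeff j) = P'.coeff j) →
      ∀ j, derivative ((P * QQ F).coeff j) = (P' * QQ F).coeff j - 16 * P.coeff j := by
    intro P P' h j
    rcases j with _ | _ | j
    · rw [coeff_mul_QQ0, coeff_mul_QQ0]
      simp [derivative_mul, h]
      ring
    · rw [zero_add, coeff_mul_QQ1, coeff_mul_QQ1]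
      simp [derivative_mul, h]
      ring
    · rw [show j + 1 + 1 = j + 2 from rfl, coeff_mul_QQ2, coeff_mul_QQ2]
      simp [derivative_mul, h]
      ring
  induction n generalizing j with
  | zero =>
    have := step 1 0 (fun j => by simp [coeff_one]; split_ifs <;> simp) j
    simpa using this
  | succ n ih =>
    have := step (QQ F ^ (n + 1)) (C (-16 * ((n : F[X]) + 1)) * QQ F ^ n)
      (fun j => by rw [ih, coeff_C_mul]) j
    rw [← pow_succ, mul_assoc, ← pow_succ, coeff_C_mul] at this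
    rw [this]; push_cast; ring

lemma natDegree_coeff_le (n j : ℕ) : ((QQ F ^ n).coeff j).natDegree ≤ n := by
  induction n generalizing j with
  | zero => simp [coeff_one]; split_ifs <;> simp
  | succ n ih =>
    have h1 : ∀ j, (16 * X * (QQ F ^ n).coeff j).natDegree ≤ n + 1 := fun j => by
      refine natDegree_mul_le.trans ?_
      have : (16 * X : F[X]).natDegree ≤ 1 := by compute_degree
      have := ih j
      omega
    have h2 : ∀ j, (21 * (QQ F ^ n).coeff j).natDegree ≤ n + 1 := fun j => by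
      refine natDegree_mul_le.trans ?_
      have : (21 : F[X]).natDegree = 0 := natDegree_ofNat 21
      have := ih j
      omega
    rw [pow_succ]
    rcases j with _ | _ | j
    · rw [coeff_mul_QQ0, neg_mul, neg_mul, natDegree_neg]; exact h1 0
    · rw [zero_add, coeff_mul_QQ1]
      exact (natDegree_sub_le _ _).trans (max_le (h2 _) (h1 _))
    · rw [show j + 1 + 1 = j + 2 from rfl, coeff_mul_QQ2]
      exact (natDegree_sub_le _ _).trans (max_le ((natDegree_add_le _ _).trans
        (max_le ((ih _).trans (by omega)) (h2 _))) (h1 _))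

lemma system (k : ℕ) (hk : 2 * ((k : F[X]) + 2) + 1 = 0) (u v : F[X])
    (hu : u = (QQ F ^ (k + 2)).coeff (k + 2)) (hv : v = (QQ F ^ (k + 2)).coeff (k + 3)) :
    (441 + 64 * X) * derivative u = -8 * (21 * v + 2 * u) ∧
      4 * X * (441 + 64 * X) * derivative v = -3 * (441 + 64 * X) * v - 441 * v - 42 * u := by
  have a1 := coeff_mul_QQ2 (QQ F ^ (k + 1)) k
  have a2 := coeff_mul_QQ2 (QQ F ^ (k + 1)) (k + 1)
  rw [← pow_succ] at a1 a2
  rw [← hu] at a1
  rw [show k + 1 + 2 = k + 3 from rfl, ← hv, show k + 1 + 1 = k + 2 from rfl] at a2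
  have d1 := der_coeff (F := F) (k + 1) (k + 2)
  have d2 := der_coeff (F := F) (k + 1) (k + 3)
  rw [show k + 1 + 1 = k + 2 from rfl] at d1 d2
  rw [← hu] at d1
  rw [← hv] at d2
  have hd : derivative (QQ F ^ (k + 2)) = C ((k : F[X]) + 2) *
      (C 2 * (QQ F ^ (k + 1) * X) + C 21 * QQ F ^ (k + 1)) := by
    rw [derivative_pow, show k + 2 - 1 = k + 1 from rfl]
    have : derivative (QQ F) = C 2 * X + C 21 := by
      simp [QQ, derivative_mul]; rw [map_ofNat]; norm_num
    rw [this]; push_cast; ring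
  have c1 := congrArg (fun P => P.coeff (k + 1)) hd
  have c2 := congrArg (fun P => P.coeff (k + 2)) hd
  simp only [coeff_derivative, coeff_C_mul, coeff_add, coeff_mul_X] at c1 c2
  rw [show k + 1 + 1 = k + 2 from rfl, ← hu] at c1
  rw [show k + 2 + 1 = k + 3 from rfl, ← hv] at c2
  push_cast at c1 c2 d1 d2
  generalize (QQ F ^ (k + 1)).coeff k = d0 at *
  generalize (QQ F ^ (k + 1)).coeff (k + 1) = e1 at *
  generalize (QQ F ^ (k + 1)).coeff (k + 2) = e2 at *
  generalize (QQ F ^ (k + 1)).coeff (k + 3) = e3 at *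
  have f1 : u = 2 * d0 + 21 * e1 := by
    linear_combination (-2) * c1 + (u - 2 * d0 - 21 * e1) * hk
  have f2 : v = -(2 * e1 + 21 * e2) := by
    linear_combination 2 * c2 + (2 * e1 + 21 * e2 - v) * hk
  have f3 : derivative u = 8 * e2 := by linear_combination d1 - 8 * e2 * hk
  have f4 : derivative v = 8 * e3 := by linear_combination d2 - 8 * e3 * hk
  have f5 : -(441 + 64 * X) * e2 = 21 * v + 2 * u := by
    linear_combination (-21) * f2 - 4 * a1 + 2 * f1
  constructor
  · linear_combination (441 + 64 * X) * f3 - 8 * f5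
  · linear_combination 4 * X * (441 + 64 * X) * f4 + 2 * (441 + 64 * X) * a2
      + (441 + 64 * X) * f2 - 21 * f5

/-- The operator `Y Δ d/dY + 32 Y`. -/
noncomputable def MM (W : F[X]) : F[X] := X * (441 + 64 * X) * derivative W + 32 * X * W

lemma MM_sub (A B : F[X]) : MM (A - B) = MM A - MM B := by
  simp only [MM, derivative_sub]; ring

lemma MM_sum (s : Finset ℕ) (f : ℕ → F[X]) : MM (∑ k ∈ s, f k) = ∑ k ∈ s, MM (f k) := by
  simp only [MM, derivative_sum, mul_sum, sum_add_distrib]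

/-- The third order equation. -/
def Ode (W : F[X]) : Prop :=
  (441 + 64 * X) * MM (MM (MM W)) =
    8 * X * (8 * MM (MM (MM W)) + 5292 * MM (MM W) + 1166886 * MM W + 85766121 * W)

lemma ode_sq (h2 : (2 : F[X]) ≠ 0) (u v : F[X])
    (hu : (441 + 64 * X) * derivative u = -8 * (21 * v + 2 * u))
    (hv : 4 * X * (441 + 64 * X) * derivative v = -3 * (441 + 64 * X) * v - 441 * v - 42 * u) :
    Ode (u ^ 2) ∧ MM (MM (u ^ 2)) = -168 * (X * (64 * (X * u * v) - 336 * (X * v ^ 2) - 21 * u ^ 2)) := by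
  have h0 : MM (u ^ 2) = -336 * (X * u * v) := by
    simp only [MM, sq, derivative_mul]
    linear_combination 2 * X * u * hu
  have h1 : 2 * MM (X * u * v) = X * (64 * (X * u * v) - 336 * (X * v ^ 2) - 21 * u ^ 2) := by
    apply mul_left_cancel₀ h2
    simp only [MM, derivative_mul, derivative_X]
    linear_combination 4 * X ^ 2 * v * hu + X * u * hv
  have h3 : MM (X * v ^ 2) = -441 * (X * v ^ 2) - 21 * (X * u * v) := by
    apply mul_left_cancel₀ h2
    simp only [MM, sq, derivative_mul, derivative_X]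
    linear_combination X * v * hv
  have l1 : ∀ A : F[X], MM (-336 * A) = -168 * (2 * MM A) := fun A => by
    simp [MM, derivative_mul]; ring
  have l2 : ∀ A B D : F[X], MM (-168 * (X * (64 * A - 336 * B - 21 * D))) =
      -168 * (X * (441 + 64 * X) * (64 * A - 336 * B - 21 * D) +
        X * (32 * (2 * MM A) - 336 * MM B - 21 * MM D)) := fun A B D => by
    simp [MM, derivative_mul]; ring
  have h4 : MM (MM (u ^ 2)) =
      -168 * (X * (64 * (X * u * v) - 336 * (X * v ^ 2) - 21 * u ^ 2)) := by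
    rw [h0, l1, h1]
  refine ⟨?_, h4⟩
  rw [Ode, h4, l2, h1, h3, h0]
  ring

lemma MM_low (j : ℕ) (c : F) (V : F[X]) :
    ∃ V', MM (X ^ j * (C c + X * V)) = X ^ j * (C (441 * j * c) + X * V') := by
  have h : (X : F[X]) * derivative (X ^ j) = (j : F[X]) * X ^ j := by
    rcases j with _ | j
    · simp
    · rw [derivative_X_pow]; simp; ring
  refine ⟨64 * (j : F[X]) * C c + (441 + 64 * X) * ((j : F[X]) * V + V + X * derivative V)
    + 32 * (C c + X * V), ?_⟩
  simp only [MM, derivative_mul, derivative_add, derivative_C, derivative_X, map_mul,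
    map_natCast, map_ofNat]
  linear_combination (441 + 64 * X) * (C c + X * V) * h

lemma ode_unique {p : ℕ} [CharP F p] (h441 : (441 : F) ≠ 0) (W : F[X]) (hW : Ode W)
    (hd : W.natDegree < p) (h0 : W.coeff 0 = 0) : W = 0 := by
  have key : ∀ j, j + 1 ≤ p → X ^ (j + 1) ∣ W := by
    intro j
    induction j with
    | zero => intro _; simpa [X_dvd_iff] using h0
    | succ j ih =>
      intro hj
      obtain ⟨V, hV⟩ := ih (by omega)
      have e : V = C (V.coeff 0) + X * V.divX := by rw [add_comm, X_mul_divX_add]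
      rw [e] at hV
      obtain ⟨V1, h1⟩ := MM_low (j + 1) (V.coeff 0) V.divX
      obtain ⟨V2, h2⟩ := MM_low (j + 1) (441 * (j + 1 : ℕ) * V.coeff 0) V1
      obtain ⟨V3, h3⟩ := MM_low (j + 1) (441 * (j + 1 : ℕ) * (441 * (j + 1 : ℕ) * V.coeff 0)) V2
      rw [Ode, hV, h1, h2, h3] at hW
      have hX : (X : F[X]) ^ (j + 1) ≠ 0 := pow_ne_zero _ X_ne_zero
      have hW' : (441 + 64 * X) *
          (C (441 * (j + 1 : ℕ) * (441 * (j + 1 : ℕ) * (441 * (j + 1 : ℕ) * V.coeff 0))) + X * V3) =
          X * (8 * (8 * (C (441 * (j + 1 : ℕ) * (441 * (j + 1 : ℕ) *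
            (441 * (j + 1 : ℕ) * V.coeff 0))) + X * V3) +
            5292 * (C (441 * (j + 1 : ℕ) * (441 * (j + 1 : ℕ) * V.coeff 0)) + X * V2) +
            1166886 * (C (441 * (j + 1 : ℕ) * V.coeff 0) + X * V1) +
            85766121 * (C (V.coeff 0) + X * V.divX))) := by
        apply mul_left_cancel₀ hX
        linear_combination hW
      have h4 := congrArg (eval 0) hW'
      simp only [eval_mul, eval_add, eval_X, eval_C, eval_ofNat, zero_mul, mul_zero,
        add_zero] at h4
      have hj' : ((j + 1 : ℕ) : F) ≠ 0 := by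
        rw [Ne, CharP.cast_eq_zero_iff F p]
        exact fun h => by have := Nat.le_of_dvd (by omega) h; omega
      have h5 : V.coeff 0 = 0 := by
        simpa only [mul_eq_zero, h441, hj', false_or] using h4
      rw [h5, map_zero, zero_add] at hV
      exact ⟨V.divX, by rw [hV]; ring⟩
  obtain ⟨q, rfl⟩ : ∃ q, p = q + 1 := ⟨p - 1, by omega⟩
  by_contra hne
  have := natDegree_le_of_dvd (key q le_rfl) hne
  rw [natDegree_X_pow] at this
  omega

/-- The basis polynomials. -/
noncomputable def ph (F : Type*) [Field F] (m k : ℕ) : F[X] := X ^ k * (441 + 64 * X) ^ (m - k)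

lemma MM_ph {m k : ℕ} (hm : 2 * (m : F[X]) + 1 = 0) (hk : k ≤ m) (c : F) :
    MM (C c * ph F m k) = C (441 * k * c) * ph F m k := by
  have h : (X : F[X]) * derivative (X ^ k) = (k : F[X]) * X ^ k := by
    rcases k with _ | j
    · simp
    · rw [derivative_X_pow]; simp; ring
  obtain ⟨i, rfl⟩ := Nat.exists_eq_add_of_le hk
  have h' : (441 + 64 * X : F[X]) * derivative ((441 + 64 * X) ^ i) =
      64 * (i : F[X]) * (441 + 64 * X) ^ i := by
    rcases i with _ | j
    · simp
    · rw [derivative_pow]; simp [derivative_mul]; ring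
  simp only [MM, ph, Nat.add_sub_cancel_left, derivative_mul, derivative_C, map_mul,
    map_natCast, map_ofNat]
  push_cast at hm
  linear_combination C c * (441 + 64 * X) * (441 + 64 * X) ^ i * h + C c * X * X ^ k * h'
    + 32 * X * C c * X ^ k * (441 + 64 * X) ^ i * hm

lemma MM_comb {m : ℕ} (hm : 2 * (m : F[X]) + 1 = 0) (c : ℕ → F) :
    MM (∑ k ∈ range (m + 1), C (c k) * ph F m k) =
      ∑ k ∈ range (m + 1), C (441 * k * c k) * ph F m k := by
  rw [MM_sum]
  exact sum_congr rfl fun k hk => MM_ph hm (by simpa [Nat.lt_succ_iff] using hk) _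

lemma ode_R {m : ℕ} (hm : 2 * (m : F[X]) + 1 = 0) :
    Ode (∑ k ∈ range (m + 1), C ((((2 * k).choose k : ℕ) : F) ^ 3) * ph F m k) := by
  rw [Ode, MM_comb hm, MM_comb hm, MM_comb hm]
  simp only [mul_sum, ← sum_add_distrib]
  rw [sum_range_succ', sum_range_succ]
  have e0 : ∀ a b c d : F[X], c = 0 → d = 0 → a = b → a + c = b + d := by
    intro a b c d h1 h2 h3; rw [h1, h2, h3]
  refine e0 _ _ _ _ (by simp) ?_ (sum_congr rfl fun k hk => ?_)
  · simp only [map_mul, map_natCast, map_ofNat, map_pow]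
    linear_combination 8 * X * 85766121 * (((2 * m).choose m : ℕ) : F[X]) ^ 3 * ph F m m *
      (2 * m + 1) ^ 2 * hm
  · have hk' : k < m := by simpa using hk
    have h1 : (441 + 64 * X : F[X]) * ph F m (k + 1) = X * ph F m k := by
      rw [ph, ph, show m - k = m - (k + 1) + 1 by omega]; ring
    have h2 : ((k : F[X]) + 1) * (((2 * (k + 1)).choose (k + 1) : ℕ) : F[X]) =
        2 * (2 * k + 1) * (((2 * k).choose k : ℕ) : F[X]) := by
      have := Nat.succ_mul_centralBinom_succ k
      rw [Nat.centralBinom, Nat.centralBinom] at this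
      exact_mod_cast congrArg (fun n : ℕ => (n : F[X])) this
    simp only [map_mul, map_natCast, map_ofNat, map_pow]
    push_cast
    generalize (((2 * (k + 1)).choose (k + 1) : ℕ) : F[X]) = a at *
    generalize (((2 * k).choose k : ℕ) : F[X]) = b at *
    have h3 : (((k : F[X]) + 1) * a) ^ 3 = (2 * (2 * k + 1) * b) ^ 3 := by rw [h2]
    linear_combination 85766121 * (((k : F[X]) + 1) * a) ^ 3 * h1 + 85766121 * X * ph F m k * h3

lemma coeff_eval (n j : ℕ) (y : F) :
    eval y ((QQ F ^ n).coeff j) = ((X ^ 2 + C 21 * X + C (-16 * y) : F[X]) ^ n).coeff j := by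
  have : ((X ^ 2 + C 21 * X + C (-16 * y) : F[X]) ^ n) = (QQ F ^ n).map (evalRingHom y) := by
    simp [QQ, Polynomial.map_pow]
  rw [this, coeff_map]; rfl

theorem clausen {p m : ℕ} [CharP F p] (hp : p = 2 * m + 1) (hm2 : 2 ≤ m) (h2 : (2 : F) ≠ 0)
    (h441 : (441 : F) ≠ 0)
    (hu : ((X ^ 2 + C 21 * X + C 112 : F[X]) ^ m).coeff m = 0) :
    194481 * (-7) ^ m * ∑ k ∈ range (m + 1), (k : F) ^ 2 * (((2 * k).choose k : ℕ) : F) ^ 3 =
      2765952 * ((X ^ 2 + C 21 * X + C 112 : F[X]) ^ m).coeff (m + 1) ^ 2 := by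
  have hm : 2 * (m : F[X]) + 1 = 0 := by
    have : ((p : ℕ) : F[X]) = 0 := CharP.cast_eq_zero _ p
    rw [hp] at this; exact_mod_cast this
  obtain ⟨k, rfl⟩ : ∃ k, m = k + 2 := ⟨m - 2, by omega⟩
  obtain ⟨u, hu'⟩ : ∃ u, u = (QQ F ^ (k + 2)).coeff (k + 2) := ⟨_, rfl⟩
  obtain ⟨v, hv'⟩ : ∃ v, v = (QQ F ^ (k + 2)).coeff (k + 3) := ⟨_, rfl⟩
  obtain ⟨s1, s2⟩ := system k (by exact_mod_cast hm) u v hu' hv'
  have h2' : (2 : F[X]) ≠ 0 := by
    rw [show (2 : F[X]) = C 2 from rfl]; exact C_ne_zero.2 h2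
  obtain ⟨o1, o2⟩ := ode_sq h2' u v s1 s2
  have o3 := ode_R (F := F) hm
  obtain ⟨R, hR⟩ : ∃ R, R = ∑ j ∈ range (k + 2 + 1),
    C ((((2 * j).choose j : ℕ) : F) ^ 3) * ph F (k + 2) j := ⟨_, rfl⟩
  rw [← hR] at o3
  have e : u ^ 2 - R = 0 := by
    refine ode_unique (p := p) h441 _ ?_ ?_ ?_
    · rw [Ode] at *
      simp only [MM_sub]
      linear_combination o1 - o3
    · have d1 : (u ^ 2).natDegree ≤ 2 * (k + 2) := by
        refine natDegree_pow_le.trans (Nat.mul_le_mul_left _ ?_)
        rw [hu']; exact natDegree_coeff_le _ _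
      have d2 : R.natDegree ≤ 2 * (k + 2) := by
        rw [hR]
        refine natDegree_sum_le_of_forall_le _ _ fun j hj => (natDegree_C_mul_le _ _).trans ?_
        have hj' : j ≤ k + 2 := by simpa [Nat.lt_succ_iff] using hj
        refine natDegree_mul_le.trans ?_
        have a1 : ((441 + 64 * X : F[X]) ^ (k + 2 - j)).natDegree ≤ (k + 2 - j) * 1 :=
          natDegree_pow_le.trans (Nat.mul_le_mul_left _ (by compute_degree))
        rw [natDegree_X_pow]; omega
      have := natDegree_sub_le (u ^ 2) R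
      omega
    · rw [coeff_zero_eq_eval_zero, eval_sub, eval_pow, hu', coeff_eval, hR, eval_finset_sum,
        sum_range_succ']
      have a1 : ((X ^ 2 + C 21 * X + C (-16 * 0) : F[X]) ^ (k + 2)) =
          (X + C 21) ^ (k + 2) * X ^ (k + 2) := by
        rw [← mul_pow]; congr 1; simp; ring
      have a2 := coeff_mul_X_pow ((X + C 21 : F[X]) ^ (k + 2)) (k + 2) 0
      rw [zero_add] at a2
      rw [a1, a2, coeff_zero_eq_eval_zero]
      simp [ph]
      rw [← pow_mul, mul_comm, pow_mul]; norm_num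
  rw [sub_eq_zero] at e
  rw [e, hR, MM_comb hm, MM_comb hm] at o2
  have o4 := congrArg (eval (-7)) o2
  have b1 : eval (-7) u = 0 := by
    rw [hu', coeff_eval, ← hu]; norm_num
  have b2 : eval (-7) v = ((X ^ 2 + C 21 * X + C 112 : F[X]) ^ (k + 2)).coeff (k + 2 + 1) := by
    rw [hv', coeff_eval]; norm_num
  rw [← hR, ← e] at o4
  simp only [eval_finset_sum, eval_mul, eval_C, eval_sub, eval_neg, eval_ofNat, eval_X, eval_pow,
    b1, b2] at o4
  rw [mul_sum]
  refine Eq.trans (sum_congr rfl fun j hj => ?_) (o4.trans (by ring))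
  have hj' : j ≤ k + 2 := by simpa [Nat.lt_succ_iff] using hj
  have : eval (-7) (ph F (k + 2) j) = (-7) ^ (k + 2) := by
    simp only [ph, eval_mul, eval_pow, eval_X, eval_add, eval_ofNat]
    rw [show (441 + 64 * -7 : F) = -7 by norm_num, ← pow_add]; congr 1; omega
  rw [this]; ring

end Pool.Agent.Work.MP_8625e1_nt.Kl
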