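import Pool.Agent.Work.MP_8625e1_nt.Final
import Pool.Agent.Work.MP_8625e1_nt.K.Clau
import Pool.Agent.Work.MP_8625e1_nt.K.Cart

/-! Closed form of the sum of `k ^ 2 * choose (2 k) k ^ 3` modulo an inert prime. -/

namespace Pool.Agent.Work.MP_8625e1_nt.Kl

open Finset

lemma neg_seven {p m : ℕ} [hp : Fact p.Prime] (hm : p = 2 * m + 1)
    (h : p % 7 = 3 ∨ p % 7 = 5 ∨ p % 7 = 6) : (-7 : ZMod p) ^ m = -1 := by
  have ho : Odd p := ⟨m, hm⟩
  have h1 : jacobiSym (-7) p = jacobiSym (p % 7 : ℕ) 7 := by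
    have h4 := jacobiSym.quadratic_reciprocity (a := 7) (by decide) ho
    have h5 : ((-1 : ℤ) ^ (p / 2)) ^ 2 = 1 := by rw [← pow_mul, mul_comm, pow_mul]; simp
    rw [show (-7 : ℤ) = -(7 : ℕ) by norm_num, jacobiSym.neg _ ho,
      h4, ZMod.χ₄_eq_neg_one_pow (Nat.odd_iff.1 ho), jacobiSym.mod_left p, pow_mul']
    push_cast
    linear_combination (((-1 : ℤ) ^ (p / 2)) ^ 2 + 1) * jacobiSym (p % 7) 7 * h5
  have h3 : jacobiSym (p % 7 : ℕ) 7 = -1 := by rcases h with h | h | h <;> rw [h] <;> norm_num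
  have h2 := legendreSym.eq_pow p (-7)
  rw [jacobiSym.legendreSym.to_jacobiSym, h1, h3, show p / 2 = m by omega] at h2
  exact_mod_cast h2.symm

theorem closed {p : ℕ} [hp : Fact p.Prime] (h3 : 3 < p) (e : ℕ)
    (h : p % 7 = 3 ∧ e = 1 ∨ p % 7 = 5 ∧ e = 16 ∨ p % 7 = 6 ∧ e = 4) :
    441 * ∑ k ∈ range ((p - 1) / 2 + 1), (k : ZMod p) ^ 2 * (((2 * k).choose k : ℕ) : ZMod p) ^ 3
      = -8 * e * (((3 * p / 7).choose (p / 7) : ℕ) : ZMod p) ^ 2 := by
  have nz : ∀ q : ℕ, q.Prime → q ≠ p → ((q : ℕ) : ZMod p) ≠ 0 := fun q hq hne h0 =>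
    hne ((Nat.prime_dvd_prime_iff_eq hp.out hq).1 ((ZMod.natCast_eq_zero_iff _ _).1 h0)).symm
  have h2 : (2 : ZMod p) ≠ 0 := by exact_mod_cast nz 2 (by norm_num) (by omega)
  have h3' : (3 : ZMod p) ≠ 0 := by exact_mod_cast nz 3 (by norm_num) (by omega)
  have h7 : (7 : ZMod p) ≠ 0 := by exact_mod_cast nz 7 (by norm_num) (by omega)
  have h441 : (441 : ZMod p) ≠ 0 := by
    rw [show (441 : ZMod p) = 3 * 3 * 7 * 7 by norm_num]; simp [h3', h7]
  obtain ⟨m', hm'⟩ := hp.out.odd_of_ne_two (by omega)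
  obtain ⟨m, rfl⟩ : ∃ m, m' = m + 1 := ⟨m' - 1, by omega⟩
  obtain ⟨ρ, hρ, hX⟩ := fermat h7
  have h0 : PowerSeries.constantCoeff ρ = 1 := by
    obtain ⟨w, hw⟩ := hX
    have := congrArg PowerSeries.constantCoeff hw
    simpa [sub_eq_zero] using this
  have hr : ρ * ρ⁻¹ = 1 := PowerSeries.mul_inv_cancel ρ (by simp [h0])
  generalize ρ⁻¹ = r at hr
  obtain ⟨t1, t2⟩ := transfer hm' (ZMod.pow_card) h2 h7 ρ r hρ h0 hr _ rfl
  obtain ⟨n, hn⟩ : ∃ n, n = p / 7 := ⟨_, rfl⟩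
  obtain ⟨k, l, hkl⟩ : ∃ k l, 1 + 7 * l = p * k := by
    rcases h with h | h | h
    · exact ⟨5, 5 * n + 2, by omega⟩
    · exact ⟨3, 3 * n + 2, by omega⟩
    · exact ⟨6, 6 * n + 5, by omega⟩
  have z : ∀ a j i, i < 2 * p → i % 7 ≠ a % 7 →
      PowerSeries.coeff i (PowerSeries.X ^ a * r ^ j) = 0 := by
    intro a j i hi hne
    rw [PowerSeries.coeff_X_pow_mul']
    split_ifs with hle
    · rw [coeff_inv_pow hρ hX hr (k := k * j) (l := l * j)
        (by rw [← mul_assoc p, ← hkl]; ring) (by omega), if_neg (by omega)]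
    · rfl
  have z0 : ∀ j i, i < 2 * p → i % 7 ≠ 0 → PowerSeries.coeff i (r ^ j) = 0 := fun j i hi hne => by
    simpa using z 0 j i hi hne
  have y : ∀ a j l c, j + 7 * l = p * 3 → 7 * c < 2 * p →
      PowerSeries.coeff (7 * c + a) (PowerSeries.X ^ a * r ^ j) ^ 2 =
        ((l.choose c : ℕ) : ZMod p) ^ 2 := by
    intro a j l c h1 h2
    rw [PowerSeries.coeff_X_pow_mul, coeff_inv_pow hρ hX hr h1 h2, if_pos (dvd_mul_right _ _),
      Nat.mul_div_cancel_left _ (by norm_num), mul_pow, ← pow_mul, mul_comm c 2, pow_mul]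
    simp
  rw [map_sub, map_add, z0 _ _ (by omega) (by omega), z _ _ _ (by omega) (by omega),
    z _ _ _ (by omega) (by omega), add_zero, sub_zero] at t1
  have cl := clausen hm' (by omega) h2 h441 t1
  rw [neg_seven hm' (by omega)] at cl
  rw [show (p - 1) / 2 = m + 1 by omega]
  simp only [map_add, map_sub, map_nsmul] at t2
  rw [z 3 _ _ (by omega) (by omega), z 2 _ _ (by omega) (by omega),
    z 5 _ _ (by omega) (by omega)] at t2
  have hp0 : ((p : ℕ) : ZMod p) = 0 := ZMod.natCast_self p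
  generalize (((Polynomial.X ^ 2 + Polynomial.C 21 * Polynomial.X + Polynomial.C 112 :
    Polynomial (ZMod p)) ^ (m + 1)).coeff (m + 1 + 1)) = v at *
  generalize (∑ k ∈ range (m + 1 + 1),
    (k : ZMod p) ^ 2 * (((2 * k).choose k : ℕ) : ZMod p) ^ 3) = D at *
  have fin : (28 * v) ^ 2 = e * (((3 * p / 7).choose (p / 7) : ℕ) : ZMod p) ^ 2 := by
    rw [← hn]
    rcases h with ⟨h, rfl⟩ | ⟨h, rfl⟩ | ⟨h, rfl⟩
    · rw [z0 _ _ (by omega) (by omega), z 6 _ _ (by omega) (by omega),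
        show 2 * m + 4 = 7 * n + 4 by omega] at t2
      have := y 4 2 (3 * n + 1) n (by omega) (by omega)
      rw [show 3 * p / 7 = 3 * n + 1 by omega, ← this, t2]; simp
    · rw [z0 _ _ (by omega) (by omega), z 4 _ _ (by omega) (by omega),
        show 2 * m + 4 = 7 * n + 6 by omega] at t2
      have := y 6 8 (3 * n + 1) n (by omega) (by omega)
      have a1 := congrArg (fun x : ℕ => (x : ZMod p)) (Nat.choose_mul_succ_eq (3 * n + 1) n)
      rw [show 3 * n + 1 + 1 - n = 2 * n + 2 by omega] at a1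
      have a2 : 7 * (n : ZMod p) + 5 = 0 := by
        have a0 := congrArg (fun x : ℕ => (x : ZMod p)) (show 7 * n + 5 = p by omega)
        simp only [hp0] at a0
        exact_mod_cast a0
      push_cast at a1
      have a3 : (((3 * n + 1).choose n : ℕ) : ZMod p) =
          -4 * (((3 * n + 1 + 1).choose n : ℕ) : ZMod p) := by
        linear_combination (-7) * a1 + (3 * (((3 * n + 1).choose n : ℕ) : ZMod p)
          - 2 * (((3 * n + 1 + 1).choose n : ℕ) : ZMod p)) * a2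
      rw [show 3 * p / 7 = 3 * n + 1 + 1 by omega, t2]
      rw [a3] at this
      simp only [smul_zero, zero_add, add_zero, sub_zero, this]
      push_cast; ring
    · rw [z 6 _ _ (by omega) (by omega), z 4 _ _ (by omega) (by omega),
        show 2 * m + 4 = 7 * (n + 1) + 0 by omega] at t2
      have := y 0 4 (3 * n + 2) (n + 1) (by omega) (by omega)
      have a1 := Nat.choose_succ_right_eq (3 * n + 2) n
      rw [show 3 * n + 2 - n = 2 * (n + 1) by omega, ← mul_assoc] at a1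
      rw [Nat.eq_of_mul_eq_mul_right (by omega) a1, pow_zero, one_mul] at this
      rw [show 3 * p / 7 = 3 * n + 2 by omega, t2]
      simp only [smul_zero, add_zero, sub_zero] at this ⊢
      rw [this]
      push_cast; ring
  apply mul_left_cancel₀ h441
  linear_combination (-1) * cl - 3528 * fin

theorem both {p : ℕ} [hp : Fact p.Prime] (h3 : 3 < p) (e : ℕ)
    (h : p % 7 = 3 ∧ e = 1 ∨ p % 7 = 5 ∧ e = 16 ∨ p % 7 = 6 ∧ e = 4) (S : ℚ) (F b : ℤ)
    (hS : S = ∑ k ∈ range ((p - 1) / 2 + 1),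
      ((2 * k).choose k : ℚ) ^ 3 * ∑ j ∈ Ioc k (2 * k), 1 / (j : ℚ))
    (hF : F = ∑ k ∈ range ((p - 1) / 2 + 1), ((2 * k).choose k : ℤ) ^ 3)
    (hb : b = (3 * p / 7).choose (p / 7)) :
    (p : ℤ) ^ 2 ∣ 6 * e * b ^ 2 * S.num + 49 * p * S.den ∧
      (p : ℤ) ^ 3 ∣ e * b ^ 2 * F + 11 * p ^ 2 := by
  obtain ⟨h1, -, h4⟩ := main h3 (by omega) S F _ hS hF rfl
  obtain ⟨⟨m, hm⟩, ⟨r, hr⟩, ⟨s, hs⟩⟩ := h4 (by omega)
  have hp0 : (p : ℤ) ≠ 0 := by exact_mod_cast hp.out.ne_zero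
  have hpi : Prime (p : ℤ) := Nat.prime_iff_prime_int.1 hp.out
  obtain ⟨D, hD⟩ : ∃ D : ℤ, D = ∑ k ∈ range ((p - 1) / 2 + 1),
    (k : ℤ) ^ 2 * ((2 * k).choose k : ℤ) ^ 3 := ⟨_, rfl⟩
  rw [← hD] at hr
  obtain ⟨w, hw⟩ : (p : ℤ) ∣ 441 * D + 8 * e * b ^ 2 := by
    rw [← ZMod.intCast_zmod_eq_zero_iff_dvd, hD, hb]
    push_cast
    linear_combination closed h3 e h
  have h5 : 27 * m * D - 4 * S.den = p * r :=
    mul_left_cancel₀ hp0 (by linear_combination hr - 27 * D * hm)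
  have nd : ∀ q : ℕ, q.Prime → q ≠ p → ¬ (p : ℤ) ∣ (q : ℤ) := fun q hq hne h0 =>
    hne ((Nat.prime_dvd_prime_iff_eq hp.out hq).1 (by exact_mod_cast h0)).symm
  have n2 := nd 2 (by norm_num) (by omega)
  have n3 := nd 3 (by norm_num) (by omega)
  have n7 := nd 7 (by norm_num) (by omega)
  obtain ⟨u, hu⟩ : (p : ℤ) ∣ 6 * e * b ^ 2 * m + 49 * S.den := by
    have : (p : ℤ) ∣ ((2 : ℕ) * (3 : ℕ)) ^ 2 * (6 * e * b ^ 2 * m + 49 * S.den) :=
      ⟨27 * m * w - 441 * r, by push_cast; linear_combination 27 * m * hw - 441 * h5⟩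
    refine (hpi.dvd_or_dvd this).resolve_left fun h6 => ?_
    exact (hpi.dvd_or_dvd (hpi.dvd_of_dvd_pow h6)).elim n2 n3
  refine ⟨⟨u, by linear_combination p * hu + 6 * e * b ^ 2 * hm⟩, ?_⟩
  have h6 : (p : ℤ) ^ 3 ∣ (((7 : ℕ) : ℤ) ^ 2 * S.den) * (e * b ^ 2 * F + 11 * p ^ 2) :=
    ⟨11 * u - e * b ^ 2 * s, by
      push_cast
      linear_combination 11 * p ^ 2 * hu - e * b ^ 2 * hs + 66 * p * e * b ^ 2 * hm⟩
  refine hpi.pow_dvd_of_dvd_mul_left 3 (fun h7 => ?_) h6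
  exact (hpi.dvd_or_dvd h7).elim (fun h8 => n7 (hpi.dvd_of_dvd_pow h8))
    fun h8 => h1 (by exact_mod_cast h8)

end Pool.Agent.Work.MP_8625e1_nt.Kl
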